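import Pool.Agent.Helper80_MQG.MUA

set_option autoImplicit false

/-! # Row MUB -/

namespace Pool.Agent.MQG.H74

open scoped InnerProductSpace InnerProduct Topology ComplexConjugate
open Complex Filter Pool.Agent.MQG Pool.Agent.MQG.H80

theorem mem3 {κ ι : Type} {V : ℝ → Op ι} (hV : IsGroup V) (U Uh : Op (κ × ι)) (hh : IsHat V U Uh)
    {f : ℂ → L2 ι} (hf : Traj V f) (η : L2 (ι × ι)) :
    RL (Equiv.refl (κ × ι × ι)) (((emb e13 (star (f 0)))†) ∘L l12 Uh) η ∈ Cols U := by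
  refine (Total.tn (total_star (total_traj hV 0)) (total_univ (E := L2 ι))).mem_of_closed
    ((Cols U).comap
    ((RL (Equiv.refl (κ × ι × ι)) (((emb e13 (star (f 0)))†) ∘L l12 Uh) :
      L2 (ι × ι) →L[ℂ] (L2 κ →L[ℂ] L2 (κ × ι))) : L2 (ι × ι) →ₗ[ℂ] (L2 κ →L[ℂ] L2 (κ × ι))))
    ((isClosed_Cols U).preimage (ContinuousLinearMap.continuous _)) ?_ η
  rintro _ ⟨_, ⟨_, ⟨p, hp, rfl⟩, rfl⟩, q, -, rfl⟩
  change RL (Equiv.refl (κ × ι × ι)) (((emb e13 (star (f 0)))†) ∘L l12 Uh)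
    (tn (star (p 0)) q) ∈ Cols U
  have h1 : RL (Equiv.refl (κ × ι × ι)) (((emb e13 (star (f 0)))†) ∘L l12 Uh)
      (tn (star (p 0)) q) = col (sl Uh (star (f 0)) (star (p 0))) q := by
    ext k : 1
    rw [RL_apply, ContinuousLinearMap.comp_apply, ← tn_eq, l12_tn, adj_e13_tl_e12,
      col_apply, sl_apply]
  rw [h1, hh.sl hf hp]
  exact col_mem U (sl_star_mem U _ _) q

/-- MUB -/
theorem mub (ttb : TtbStmt) : MubStmt := by
  intro ι M κ U Uh hU hh g b h hg hb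
  obtain ⟨X, hX⟩ : ∃ X : L2 (κ × ι × ι) →L[ℂ] L2 (κ × ι),
      X = ((emb e13 (g 0))†) ∘L l23 M.W ∘L star (l12 U) := ⟨_, rfl⟩
  -- (1)
  have h1 : star U ∘L col (sl (star U) (g 0) (b 0)) h =
      RL (Equiv.refl (κ × ι × ι)) X (star M.W (tn (b 0) h)) := by
    ext k : 1
    have hW : (l23 M.W : Op (κ × ι × ι)) * star (l23 M.W) = 1 :=
      (Unitary.mem_iff.1 (l23_unitary M.W_unitary)).2
    have hk2 : l13 (star U) * l12 (star U) =
        (l23 M.W * star (l12 U) * star (l23 M.W) : Op (κ × ι × ι)) := by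
      have h3 := congrArg star hU.eq
      rw [star_mul, star_mul, star_mul, ← l12_star, ← l13_star] at h3
      rw [l12_star] at h3 ⊢
      rw [mul_assoc, ← h3, ← mul_assoc, hW, one_mul]
    have h2 : l13 (star U) (l12 (star U) (tn k (tn (b 0) h))) =
        l23 M.W (star (l12 U) (star (l23 M.W) (tn k (tn (b 0) h)))) := by
      have h3 := DFunLike.congr_fun hk2 (tn k (tn (b 0) h))
      exact h3
    rw [← l23_star, l23_tn'] at h2
    rw [RL_apply, hX, ContinuousLinearMap.comp_apply, ContinuousLinearMap.comp_apply,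
      ContinuousLinearMap.comp_apply, ← tn_eq, ← h2, col_apply, sl_apply, l12_tn]
    have h4 := DFunLike.congr_fun (adj_e13_l13 (β := ι) (star U) (g 0))
      (tl e12 (star U (tn k (b 0))) h)
    rw [ContinuousLinearMap.comp_apply, ContinuousLinearMap.comp_apply, adj_e13_tl_e12] at h4
    exact h4.symm
  rw [h1]
  -- (2)
  obtain ⟨ζ, hζ⟩ : ∃ ζ, ζ = star M.W (tn (b 0) h) := ⟨_, rfl⟩
  rw [← hζ]
  refine (Total.tn (total_traj M.V_group 0) (total_univ (E := L2 ι))).mem_of_closed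
    ((Cols U).comap ((RL (Equiv.refl (κ × ι × ι)) X :
      L2 (ι × ι) →L[ℂ] (L2 κ →L[ℂ] L2 (κ × ι))) : L2 (ι × ι) →ₗ[ℂ] (L2 κ →L[ℂ] L2 (κ × ι))))
    ((isClosed_Cols U).preimage (ContinuousLinearMap.continuous _)) ?_ ζ
  rintro _ ⟨_, ⟨b', hb', rfl⟩, h', -, rfl⟩
  change RL (Equiv.refl (κ × ι × ι)) X (tn (b' 0) h') ∈ Cols U
  have hk : Traj M.V fun s => b' (s + (-(I / 2))) := hb'.shift M.V_group _
  have hk' : Traj M.V fun s => g (s + I / 2) := hg.shift M.V_group _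
  have h5 : RL (Equiv.refl (κ × ι × ι)) X (tn (b' 0) h') =
      RL (Equiv.refl (κ × ι × ι)) (((emb e13 (star ((fun s => b' (s + (-(I / 2)))) 0)))†) ∘L l12 Uh)
        (M.Wt (tn (star (g (I / 2))) h')) := by
    ext k₂ : 1
    refine total_tn.ext_inner ?_
    rintro _ ⟨k₁, u, rfl⟩
    have h6 := ttb ι M κ U Uh hh (tn k₁ u) k₂ _ _ h' hk hk'
    have e1 : I / 2 + -(I / 2) = 0 := by ring
    have e2 : -(I / 2) + I / 2 = 0 := by ring
    simp only [e1, e2, zero_add] at h6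
    simp only [zero_add]
    rw [RL_apply, RL_apply, hX, ContinuousLinearMap.comp_apply, ContinuousLinearMap.comp_apply,
      ContinuousLinearMap.comp_apply, inner_emb_adj, inner_emb_adj, ← tn_eq,
      ← tn_eq, ← h6, l23_tn']
  rw [h5]
  exact mem3 M.V_group U Uh hh hk _

end Pool.Agent.MQG.H74
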