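import Pool.Agent.MQG.AsmQ2
import Pool.Agent.Helper21_MQG.COM
import Pool.Agent.Helper56_MQG.YID
import Pool.Agent.Helper56_MQG.YLI
import Pool.Agent.Helper10_MQG.HTE
import Pool.Agent.Helper86_MQG.TTA
import Pool.Agent.Helper64_MQG.TTB
import Pool.Agent.Helper69_MQG.KEY
import Pool.Agent.Helper13_MQG.BCO
import Pool.Agent.Helper67_MQG.BTW
import Pool.Agent.Helper29_MQG.BPR
import Pool.Agent.Helper30_MQG.ABX
import Pool.Agent.Helper32_MQG.AHR
import Pool.Agent.Helper32_MQG.ASX
import Pool.Agent.Helper80_MQG.MUA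
import Pool.Agent.Helper74_MQG.MUB
import Pool.Agent.Helper24_MQG.PRA
import Pool.Agent.Helper21_MQG.PRC
import Pool.Agent.Helper29_MQG.RBD
import Pool.Agent.Helper59_MQG.RLX
import Pool.Agent.Helper59_MQG.LNO
import Pool.Agent.Helper82_MQG.EPS
import Pool.Agent.Helper59_MQG.CPI
import Pool.Agent.Helper59_MQG.UPU
import Pool.Agent.Helper10_MQG.UPA
import Pool.Agent.Helper81_MQG.STU
import Pool.Agent.Helper39_MQG.VST
import Pool.Agent.Helper41_MQG.SMU
import Pool.Agent.Helper84_MQG.LFV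
import Pool.Agent.Helper64_MQG.LPR
import Pool.Agent.Helper39_MQG.LTI
import Pool.Agent.Helper27_MQG.LTE
import Pool.Agent.Helper79_MQG.SPA
import Pool.Agent.Helper13_MQG.SPL
import Pool.Agent.Helper30_MQG.LSS
import Pool.Agent.Helper31_MQG.LMB
import Pool.Agent.Helper15_MQG.DSX
import Pool.Agent.Helper90_MQG.DSA
import Pool.Agent.Helper60_MQG.DSN
import Pool.Agent.Helper38_MQG.DSL
import Pool.Agent.Helper52_MQG.DSS
import Pool.Agent.Helper77_MQG.DAD
import Pool.Agent.Helper55_MQG.LFT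
import Pool.Agent.Helper25_MQG.UNX
import Pool.Agent.Helper34_MQG.TLA
import Pool.Agent.Helper58_MQG.TLB
import Pool.Agent.Helper87_MQG.TUN
import Pool.Agent.Helper38_MQG.SHM
import Pool.Agent.Helper35_MQG.LTX
import Pool.Agent.Helper24_MQG.LTS
import Pool.Agent.Helper92_MQG.SHC
import Pool.Agent.Helper20_MQG.LTD
import Pool.Agent.Helper49_MQG.HGE
import Pool.Agent.Helper49_MQG.HMX
import Pool.Agent.Helper27_MQG.HCB
import Pool.Agent.Helper41_MQG.HBM
import Pool.Agent.Helper31_MQG.HLM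
import Pool.Agent.Helper86_MQG.HTH
import Pool.Agent.Helper46_MQG.HSM
import Pool.Agent.Helper21_MQG.HFT
import Pool.Agent.Helper13_MQG.HAG

set_option autoImplicit false

/-! # The final statement, assembled from the rows (independent check) -/

namespace Pool.Agent.MQG.H74

open Pool.Agent.MQG

theorem key : KeyStmt := H69.key H86.tta H64.ttb
theorem yli : YliStmt := H56.yli H21.com H21.haw (H56.yid H21.haw)
theorem hte : HteStmt := H10.hte yli
theorem asx : AsxStmt := H32.asx (H32.ahr key)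
theorem abx : AbxStmt := H30.abx (H67.btw (H13.bco H21.com)) (H29B.bpr key H21.haw)
theorem amu : AmuStmt := H29B.amu hte (H80.mua key H86.tta) (mub H64.ttb) asx

theorem asp : AspStmt := by
  intro ι M κ U hU a ha
  obtain ⟨Uh, hh⟩ := hte ι M κ U hU
  have h1 := ((asx ι M κ U Uh hU hh.2).1 a).1 ha
  exact h1

theorem abs : AbsStmt := by
  intro ι M b hb
  exact ((abx ι M).1 b).1 hb

theorem dns : DnsStmt := H59.dns asp
theorem stu : StuStmt := H81.stu (H59.upu H59.cpi amu) H10.upa
theorem rbd : RbdStmt := H29.rbd H24.pra H21.prc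
theorem rlx : RlxStmt := H59.rlx rbd asp
theorem smu : SmuStmt := H41.smu stu H39.vst H24.pra H21.prc
theorem lle : LleStmt := H29.lle dns stu rlx H84.lfv H64.lpr
theorem lte : LteStmt := H27.lte dns (H39.lti dns stu H84.lfv H64.lpr) rlx
theorem spl : SplStmt := H13.spl dns
theorem spa : SpaStmt := H79.spa dns
theorem dsn : DsnStmt := H60.dsn H15.dsx H90.dsa
theorem dad : DadStmt := H77.dad dsn H90.dsa H38.dsl
theorem lft : LftStmt := H55.lft H15.dsx H90.dsa dsn H52.dss dad asp
theorem unx : UnxStmt := H25.unx H15.dsx H90.dsa dsn H52.dss dad lft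
theorem lts : LtsStmt := H24.lts (H35.ltx hte H58.hbd H59.lno H34.tla H58.tlb) H87.tun H38.shm
theorem hcb : HcbStmt := H27.hcb abs
theorem heq : HeqStmt :=
  H13.heq (H13.hag (H31.hlm hcb H49.hge) (H41.hbm hcb)) (H46.hsm H86.hth dns)
    (H21.hft H49.hge H49.hmx)

theorem final : FinalStmt2 :=
  final2 unx dns rlx H82.eps smu lle lte spl H30.lss spa H59.lno (H31.lmb H59.lno abs) lts
    (H20.ltd H92.shc lts abx) (H35.lth lts dns) heq

end Pool.Agent.MQG.H74
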